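import Pool.Agent.helper11.RPQ.SpecU
import Pool.Agent.helper62.RS.All

/-! # Project RPQ, row UOP: the operator on `L²(Γ \ G)` -/

set_option autoImplicit false

open scoped MatrixGroups ContDiff Topology UpperHalfPlane ComplexConjugate
open UpperHalfPlane MeasureTheory Filter Set

namespace Pool.Agent.RPQ

open Pool.Agent.RS
open Pool.Agent.MS (BA BB st pf gk Dk amk)

noncomputable section

/-- the norm in `Lp ℂ 2 μ` -/
theorem UOP_norm {Y : Type} [MeasurableSpace Y] {μ : Measure Y} (v : Lp ℂ 2 μ) :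
    ‖v‖ ^ 2 = ∫ y, ‖v y‖ ^ 2 ∂μ := by
  have h1 : inner ℂ v v = ((‖v‖ ^ 2 : ℝ) : ℂ) := by
    rw [inner_self_eq_norm_sq_to_K]
    push_cast
    rfl
  have h2 : inner ℂ v v = ((∫ y, ‖v y‖ ^ 2 ∂μ : ℝ) : ℂ) := by
    rw [L2.inner_def, ← integral_complex_ofReal]
    refine integral_congr_ae (Filter.Eventually.of_forall fun y => ?_)
    show inner ℂ (v y) (v y) = ((‖v y‖ ^ 2 : ℝ) : ℂ)
    rw [inner_self_eq_norm_sq_to_K]
    push_cast
    rfl
  have h3 := h1.symm.trans h2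
  exact_mod_cast h3

theorem UOP_entry (i j : Fin 2) : Continuous fun b : SL(2, ℝ) => b.1 i j :=
  (continuous_apply_apply i j).comp continuous_subtype_val

theorem UOP_box : MeasurableSet {b : SL(2, ℝ) | ∀ i j, |b.1 i j| ≤ 3} := by
  have h : {b : SL(2, ℝ) | ∀ i j, |b.1 i j| ≤ 3} = ⋂ (i : Fin 2) (j : Fin 2), {b : SL(2, ℝ) | |b.1 i j| ≤ 3} := by
    ext b
    simp
  rw [h]
  exact MeasurableSet.iInter fun i => MeasurableSet.iInter fun j =>
    (isClosed_le (UOP_entry i j).abs continuous_const).measurableSet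

theorem UOP_Bx (C η ε R : ℝ) : MeasurableSet (Bx C η ε R) := by
  have h : Bx C η ε R = {b : SL(2, ℝ) | ∀ i j, |b.1 i j| ≤ 3} ∩ ({b | |b.1 1 0| ≤ R ^ (-(5 / 8) + ε)} ∩
      ({b | |b.1 0 1| ≤ C * R ^ (-(1 / 4) : ℝ)} ∩ {b | |b.1 0 0 - b.1 1 1| ≤ C * R ^ (-η)})) := by
    ext b
    rfl
  rw [h]
  refine UOP_box.inter (MeasurableSet.inter ?_ (MeasurableSet.inter ?_ ?_))
  · exact (isClosed_le (UOP_entry 1 0).abs continuous_const).measurableSet
  · exact (isClosed_le (UOP_entry 0 1).abs continuous_const).measurableSet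
  · exact (isClosed_le ((UOP_entry 0 0).sub (UOP_entry 1 1)).abs continuous_const).measurableSet

/-- elements with bounded entries move `I` a bounded distance -/
theorem UOP_D0 (hKPS : KPS_stmt) (Γ : Subgroup SL(2, ℝ)) (F : Set ℍ) (hΓ : QU.SurfaceGroup Γ) (hF : QU.NiceDom Γ F) :
    ∃ D0 : ℝ, 0 ≤ D0 ∧ ∀ b : SL(2, ℝ), (∀ i j, |b.1 i j| ≤ 3) → dist (b • I : ℍ) I ≤ D0 := by
  classical
  have h := (hKPS Γ F (fun _ => 0) 0 0 ({b : SL(2, ℝ) | ∀ i j, |b.1 i j| ≤ 3}.indicator fun _ => (1 : ℂ)) univ hΓ hF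
    ⟨continuous_const, fun _ _ => rfl⟩ (measurable_const.indicator UOP_box)
    ⟨1, fun b => by
      rw [Set.indicator_apply]
      split_ifs
      · rw [norm_one]
      · rw [norm_zero]; exact zero_le_one⟩
    ⟨3, fun b hb => by
      by_contra hn
      exact hb (Set.indicator_of_notMem (show b ∉ {b : SL(2, ℝ) | ∀ i j, |b.1 i j| ≤ 3} from hn) _)⟩ MeasurableSet.univ (fun _ _ => ⟨fun _ => mem_univ _, fun _ => mem_univ _⟩)).1
  obtain ⟨D, hD⟩ := h.range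
  refine ⟨max D 0, le_max_right _ _, fun b hb => ?_⟩
  have h0 : (1 : SL(2, ℝ)) * aM 0 = 1 := by
    rw [one_mul]
    ext i j
    fin_cases i <;> fin_cases j <;> simp [aM]
  have h1 := hD 1 b (by
    unfold stK
    rw [h0, inv_one, one_mul, Set.indicator_of_mem (show b ∈ {b : SL(2, ℝ) | ∀ i j, |b.1 i j| ≤ 3} from hb), mul_one]
    exact Complex.exp_ne_zero _)
  rw [one_smul, dist_comm] at h1
  exact h1.trans (le_max_left _ _)

/-- bounded measurable functions on the fundamental domain extend to invariant ones -/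
theorem UOP_ext (Γ : Subgroup SL(2, ℝ)) (F : Set ℍ) (hΓ : QU.SurfaceGroup Γ) (hF : QU.NiceDom Γ F)
    (v : SL(2, ℝ) → ℂ) (hv : Measurable v) (B : ℝ) (hB : ∀ g, ‖v g‖ ≤ B) :
    ∃ v' : SL(2, ℝ) → ℂ, Measurable v' ∧ (∀ g, ‖v' g‖ ≤ B) ∧ (∀ (γ : Γ) g, v' ((γ : SL(2, ℝ)) * g) = v' g) ∧
      ∀ g ∈ dG F, v' g = v g := by
  classical
  have : Countable Γ := (QU.A_DOB Γ F hΓ hF).1
  choose r hr hru using hF.uniq
  have hmul : ∀ (γ : Γ) (g : SL(2, ℝ)), (((γ : SL(2, ℝ)) * g) • I : ℍ) = γ • (g • I : ℍ) := fun γ g => mul_smul _ _ _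
  refine ⟨fun g => v ((r (g • I) : SL(2, ℝ)) * g), ?_, fun g => hB _, fun γ g => ?_, fun g hg => ?_⟩
  · intro A hA
    have e : (fun g : SL(2, ℝ) => v ((r (g • I) : SL(2, ℝ)) * g)) ⁻¹' A =
        ⋃ γ : Γ, (fun g : SL(2, ℝ) => (γ : SL(2, ℝ)) * g) ⁻¹' (dG F ∩ v ⁻¹' A) := by
      ext g
      rw [Set.mem_iUnion]
      constructor
      · intro hg
        refine ⟨r (g • I), ?_, hg⟩
        show ((((r (g • I) : Γ) : SL(2, ℝ)) * g) • I : ℍ) ∈ F
        rw [hmul]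
        exact hr _
      · rintro ⟨γ, h1, h2⟩
        have h3 : γ = r (g • I) := by
          refine hru _ γ ?_
          show γ • (g • I : ℍ) ∈ F
          rw [← hmul]
          exact h1
        rw [h3] at h2
        exact h2
    rw [e]
    refine MeasurableSet.iUnion fun γ => ?_
    have hm : Measurable (fun g : SL(2, ℝ) => (γ : SL(2, ℝ)) * g) := (continuous_const_mul _).measurable
    exact hm ((A_GMG.1 F hF.meas).1.inter (hv hA))
  · show v ((r ((((γ : SL(2, ℝ)) * g)) • I) : SL(2, ℝ)) * ((γ : SL(2, ℝ)) * g)) = v ((r (g • I) : SL(2, ℝ)) * g)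
    have h1 : r (((γ : SL(2, ℝ)) * g) • I) * γ = r (g • I) := by
      refine hru _ _ ?_
      show (r (((γ : SL(2, ℝ)) * g) • I) * γ) • (g • I : ℍ) ∈ F
      rw [mul_smul, ← hmul]
      exact hr _
    rw [← h1, ← mul_assoc]
    rfl
  · have h1 : (1 : Γ) = r (g • I) := by
      refine hru _ _ ?_
      show (1 : Γ) • (g • I : ℍ) ∈ F
      rw [one_smul]
      exact hg
    show v ((r (g • I) : SL(2, ℝ)) * g) = v g
    rw [← h1]
    show v (((1 : Γ) : SL(2, ℝ)) * g) = v g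
    rw [Subgroup.coe_one, one_mul]

/-- two close kernels -/
theorem UOP_per (Γ : Subgroup SL(2, ℝ)) (K L : SL(2, ℝ) → SL(2, ℝ) → ℂ) (g h : SL(2, ℝ)) (S : Set Γ) (hS : S.Finite)
    (e : ℝ) (h0 : ∀ γ : Γ, γ ∉ S → K g ((γ : SL(2, ℝ)) * h) = 0 ∧ L g ((γ : SL(2, ℝ)) * h) = 0)
    (he : ∀ γ : Γ, ‖K g ((γ : SL(2, ℝ)) * h) - L g ((γ : SL(2, ℝ)) * h)‖ ≤ e) :
    ‖perK Γ K g h - perK Γ L g h‖ ≤ S.ncard * e := by
  classical
  have e1 : perK Γ K g h = ∑ γ ∈ hS.toFinset, K g ((γ : SL(2, ℝ)) * h) := by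
    refine finsum_eq_sum_of_support_subset _ fun γ hγ => ?_
    rw [Set.Finite.coe_toFinset]
    by_contra hn
    exact hγ (h0 γ hn).1
  have e2 : perK Γ L g h = ∑ γ ∈ hS.toFinset, L g ((γ : SL(2, ℝ)) * h) := by
    refine finsum_eq_sum_of_support_subset _ fun γ hγ => ?_
    rw [Set.Finite.coe_toFinset]
    by_contra hn
    exact hγ (h0 γ hn).2
  rw [e1, e2, ← Finset.sum_sub_distrib]
  refine (norm_sum_le _ _).trans ((Finset.sum_le_sum fun γ _ => he γ).trans (le_of_eq ?_))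
  rw [Finset.sum_const, nsmul_eq_mul, Set.ncard_eq_toFinset_card S hS]

/-- the operator with a small kernel -/
theorem UOP_small (hKO1 : KO1_stmt) {Y : Type} [MeasurableSpace Y] (μ : Measure Y) [IsFiniteMeasure μ] (K : Y → Y → ℂ)
    (hK : Measurable (Function.uncurry K)) (b : ℝ) (hb0 : 0 ≤ b) (hb : ∀ y z, ‖K y z‖ ≤ b)
    (T : Lp ℂ 2 μ →L[ℂ] Lp ℂ 2 μ) (hT : IsOp μ K T) : ‖T‖ ≤ b * μ.real univ := by
  have h1 := (hKO1 Y μ K hK ⟨b, hb⟩).2 T hT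
  have h2 : ∀ y, ∫ z, ‖K y z‖ ^ 2 ∂μ ≤ b ^ 2 * μ.real univ := by
    intro y
    refine (le_abs_self _).trans ?_
    rw [← Real.norm_eq_abs]
    refine norm_integral_le_of_norm_le_const (Filter.Eventually.of_forall fun z => ?_)
    rw [norm_pow, norm_norm]
    exact pow_le_pow_left₀ (norm_nonneg _) (hb y z) 2
  have h3 : ∫ y, ∫ z, ‖K y z‖ ^ 2 ∂μ ∂μ ≤ (b ^ 2 * μ.real univ) * μ.real univ := by
    refine (le_abs_self _).trans ?_
    rw [← Real.norm_eq_abs]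
    refine norm_integral_le_of_norm_le_const (Filter.Eventually.of_forall fun y => ?_)
    rw [Real.norm_eq_abs, abs_of_nonneg (integral_nonneg fun z => by positivity)]
    exact h2 y
  have h4 : 0 ≤ μ.real univ := measureReal_nonneg
  refine abs_le_of_sq_le_sq' ?_ (by positivity) |>.2
  calc ‖T‖ ^ 2 ≤ (b ^ 2 * μ.real univ) * μ.real univ := h1.trans h3
    _ = (b * μ.real univ) ^ 2 := by ring

theorem UOP_pow_le {R a b : ℝ} (hR : 1 ≤ R) (h : a ≤ b) : R ^ a ≤ R ^ b :=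
  Real.rpow_le_rpow_of_exponent_le hR h

theorem UOP_tau {R : ℝ} (hR : 1 ≤ R) : 0 ≤ tau R := div_nonneg (Real.log_nonneg hR) (by norm_num)

theorem UOP_exp_tau {R : ℝ} (hR : 1 ≤ R) : Real.exp (tau R) = R ^ (1 / 8 : ℝ) := by
  rw [Real.rpow_def_of_pos (by linarith), tau]
  congr 1
  ring

theorem UOP_proof (hUCT : UCT_stmt) (hUFX : UFX_stmt) (hUKB : UKB_stmt) (hGRW : GRW_stmt) (hKPG : KPG_stmt)
    (hKPS : KPS_stmt) (hKO1 : KO1_stmt) (hKO2 : KO2_stmt) (hKO3 : KO3_stmt) (hGKD : GKD_stmt) (hCWB : CWB_stmt)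
    (hF1 : F1_stmt) : UOP_stmt := by
  classical
  intro Γ F α β κ C0 η ε hΓ hF hα hβ hκ hC0 hη hη1 hε hε1
  obtain ⟨C1, R1, hC1, hR1, hU⟩ := hUKB α β hα hβ η ε hη hη1 hε hε1
  refine ⟨C1, hC1, fun C a hC ha => ?_⟩
  obtain ⟨δ2, R2, hδ2, hR2, hT2⟩ := hUCT Γ F α β η hΓ hF hα hβ hη hη1
  obtain ⟨δ3, R3, hδ3, hR3, hT3⟩ := hUFX Γ F α β κ C0 a η hΓ hF hα hβ hκ hC0 ha hη hη1
  obtain ⟨R4, hR4, hT4⟩ := hF1 α β hα hβ
  obtain ⟨Cg, hCg, hG⟩ := hGRW Γ hΓ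
  obtain ⟨D0, hD0, hD⟩ := UOP_D0 hKPS Γ F hΓ hF
  obtain ⟨hGFD1, hGFD2⟩ := A_GFD Γ F hΓ hF
  have hfin : IsFiniteMeasure (mG.restrict (dG F)) := by
    refine ⟨?_⟩
    rw [Measure.restrict_apply_univ]
    exact hGFD1.2.2.1
  obtain ⟨m, hm⟩ : ∃ m : ℝ, m = (mG.restrict (dG F)).real univ := ⟨_, rfl⟩
  have hm0 : 0 ≤ m := by rw [hm]; exact measureReal_nonneg
  obtain ⟨M, hM⟩ : ∃ M : ℝ, M = Cg * Real.exp D0 * m := ⟨_, rfl⟩
  have hM0 : 0 ≤ M := by rw [hM]; positivity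
  -- the exponent
  obtain ⟨δ, hδd⟩ : ∃ δ : ℝ, δ = min (min δ2 δ3) 1 / 4 := ⟨_, rfl⟩
  have hδ : 0 < δ := by
    rw [hδd]
    have : 0 < min (min δ2 δ3) 1 := lt_min (lt_min hδ2 hδ3) one_pos
    linarith
  have hδ2' : 4 * δ ≤ δ2 := by
    rw [hδd]
    have := (min_le_left (min δ2 δ3) 1).trans (min_le_left _ _)
    linarith
  have hδ3' : 4 * δ ≤ δ3 := by
    rw [hδd]
    have := (min_le_left (min δ2 δ3) 1).trans (min_le_right _ _)
    linarith
  have hδ1 : 4 * δ ≤ 1 := by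
    rw [hδd]
    have := min_le_right (min δ2 δ3) 1
    linarith
  refine ⟨δ, max (max (max R1 R2) (max R3 R4)) (max (M ^ 2) ((3 : ℝ) ^ (1 / δ))), hδ, ?_, ?_⟩
  · exact hR1.trans (((le_max_left _ _).trans (le_max_left _ _)).trans (le_max_left _ _))
  intro R ρ ϵ μ V φ hR hQ T hT
  have r1 : R1 ≤ R := (((le_max_left _ _).trans (le_max_left _ _)).trans (le_max_left _ _)).trans hR
  have r2 : R2 ≤ R := (((le_max_right _ _).trans (le_max_left _ _)).trans (le_max_left _ _)).trans hR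
  have r3 : R3 ≤ R := (((le_max_left _ _).trans (le_max_right _ _)).trans (le_max_left _ _)).trans hR
  have r4 : R4 ≤ R := (((le_max_right _ _).trans (le_max_right _ _)).trans (le_max_left _ _)).trans hR
  have r5 : M ^ 2 ≤ R := ((le_max_left _ _).trans (le_max_right _ _)).trans hR
  have r6 : (3 : ℝ) ^ (1 / δ) ≤ R := ((le_max_right _ _).trans (le_max_right _ _)).trans hR
  have hR1' : 1 ≤ R := hR1.trans r1
  have hR0 : 0 < R := by linarith
  have h3δ : 3 ≤ R ^ δ := by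
    have h1 := Real.rpow_le_rpow (by positivity) r6 hδ.le
    rw [← Real.rpow_mul (by norm_num), one_div, inv_mul_cancel₀ hδ.ne', Real.rpow_one] at h1
    exact h1
  have hbig : 3 * R ^ (-(2 * δ)) ≤ R ^ (-δ) := by
    have h1 : R ^ (-δ) = R ^ δ * R ^ (-(2 * δ)) := by
      rw [← Real.rpow_add hR0]
      congr 1
      ring
    rw [h1]
    exact mul_le_mul_of_nonneg_right h3δ (by positivity)
  -- widths
  have hw0 : 0 < w0 R := Real.rpow_pos_of_pos hR0 _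
  have hw0' : w0 R ≤ 1 := Real.rpow_le_one_of_one_le_of_nonpos hR1' (by norm_num)
  have hw1 : 0 < w1 R := Real.rpow_pos_of_pos hR0 _
  have hw1' : w1 R ≤ 1 := Real.rpow_le_one_of_one_le_of_nonpos hR1' (by norm_num)
  have hw10 : w1 R ≤ w0 R := UOP_pow_le hR1' (by norm_num)
  have hl0 : 0 < R ^ (-η) := Real.rpow_pos_of_pos hR0 _
  have hl1 : R ^ (-η) ≤ 1 := Real.rpow_le_one_of_one_le_of_nonpos hR1' (by linarith)
  have hl8 : R ^ (-(1 / 8) : ℝ) ≤ R ^ (-η) := UOP_pow_le hR1' (by linarith)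
  have hc0 := hCWB α β (w0 R) (R ^ (-η)) hα hβ hw0 hw0' hl0 hl1
  have hc1 := hCWB α β (w1 R) (R ^ (-η)) hα hβ hw1 hw1' hl0 hl1
  have htb0 : TB (1 / 4) (cw β α (w0 R) (R ^ (-η))) := hc0.2.2.2.2.2.2.1
  have htb1 : TB (1 / 4) (cw β α (w1 R) (R ^ (-η))) := hc1.2.2.2.2.2.2.1
  -- the functions uk, ut
  have hU' := hU C R hC r1
  have hukm : Measurable (uk β α η R) := by
    have h1 := (hGKD R _ _ htb1 htb0).1
    exact (continuous_const.mul h1).measurable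
  have hutm : Measurable (ut β α C η ε R) := hukm.indicator (UOP_Bx C η ε R)
  have hutb : ∀ b, ‖ut β α C η ε R b‖ ≤ C * R ^ (15 / 16 + η) := fun b => (hU' b).2.1
  have hukb : ∀ b, ‖uk β α η R b‖ ≤ C * R ^ (15 / 16 + η) + R ^ (-2 : ℝ) := by
    intro b
    have h1 := norm_add_le (ut β α C η ε R b) (uk β α η R b - ut β α C η ε R b)
    rw [add_sub_cancel] at h1
    exact h1.trans (add_le_add (hU' b).2.1 (hU' b).1)
  have huks : ∀ b, uk β α η R b ≠ 0 → ∀ i j, |b.1 i j| ≤ 3 := fun b => (hU' b).2.2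
  have huts : ∀ b, ut β α C η ε R b ≠ 0 → ∀ i j, |b.1 i j| ≤ 3 := by
    intro b hb
    by_contra hn
    apply hb
    unfold ut
    refine Set.indicator_of_notMem (fun hmem => hn hmem.1) _
  obtain ⟨K', hK'⟩ : ∃ K' : ℝ, K' = R * ϵ / 2 := ⟨_, rfl⟩
  rw [← hK'] at hT
  have hGk := (hKPS Γ F V K' (tau R) (uk β α η R) univ hΓ hF hQ.inv hukm ⟨_, hukb⟩ ⟨3, huks⟩ MeasurableSet.univ
    (fun _ _ => ⟨fun _ => mem_univ _, fun _ => mem_univ _⟩)).1
  have hGt := (hKPS Γ F V K' (tau R) (ut β α C η ε R) univ hΓ hF hQ.inv hutm ⟨_, hutb⟩ ⟨3, huts⟩ MeasurableSet.univ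
    (fun _ _ => ⟨fun _ => mem_univ _, fun _ => mem_univ _⟩)).1
  obtain ⟨hkm, hkb, hki, hku⟩ := (hKPG Γ F hΓ hF).1 _ hGk
  obtain ⟨htm, htb, -, -⟩ := (hKPG Γ F hΓ hF).1 _ hGt
  obtain ⟨⟨S, hS⟩, -⟩ := hKO1 _ (mG.restrict (dG F)) _ hkm hkb
  -- the difference
  have hdiff : ∀ g h : SL(2, ℝ), ‖perK Γ (stK V K' (tau R) (ut β α C η ε R)) g h - perK Γ (stK V K' (tau R) (uk β α η R)) g h‖ ≤
      Cg * Real.exp D0 * R ^ (-(15 / 8) : ℝ) := by
    intro g h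
    obtain ⟨hf, hn⟩ := hG (D0 + tau R) (g • I) (h • I) (add_nonneg hD0 (UOP_tau hR1'))
    have hzero : ∀ (u : SL(2, ℝ) → ℂ), (∀ b, u b ≠ 0 → ∀ i j, |b.1 i j| ≤ 3) → ∀ γ : Γ,
        γ ∉ {γ : Γ | dist (g • I : ℍ) ((γ : SL(2, ℝ)) • (h • I : ℍ)) ≤ D0 + tau R} →
          stK V K' (tau R) u g ((γ : SL(2, ℝ)) * h) = 0 := by
      intro u hu γ hγ
      by_contra hne
      apply hγ
      show dist (g • I : ℍ) ((γ : SL(2, ℝ)) • (h • I : ℍ)) ≤ D0 + tau R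
      have h1 : u ((g * aM (tau R))⁻¹ * ((γ : SL(2, ℝ)) * h)) ≠ 0 := by
        intro h0
        apply hne
        unfold stK
        rw [h0, mul_zero]
      have h2 := hD _ (hu _ h1)
      have h3 : dist ((((g * aM (tau R))⁻¹ * ((γ : SL(2, ℝ)) * h))) • I : ℍ) I =
          dist ((γ : SL(2, ℝ)) • (h • I : ℍ)) ((g * aM (tau R)) • I : ℍ) := by
        rw [← dist_smul (g * aM (tau R)) _ (I : ℍ), ← mul_smul, mul_inv_cancel_left, mul_smul]
      rw [h3] at h2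
      have h4 : dist ((g * aM (tau R)) • I : ℍ) (g • I : ℍ) = tau R := by
        rw [mul_smul, dist_smul, EGE_I A_GLC, abs_of_nonneg (UOP_tau hR1')]
      calc dist (g • I : ℍ) ((γ : SL(2, ℝ)) • (h • I : ℍ)) =
            dist ((γ : SL(2, ℝ)) • (h • I : ℍ)) (g • I : ℍ) := dist_comm _ _
        _ ≤ dist ((γ : SL(2, ℝ)) • (h • I : ℍ)) ((g * aM (tau R)) • I : ℍ) +
            dist ((g * aM (tau R)) • I : ℍ) (g • I : ℍ) := dist_triangle _ _ _
        _ ≤ D0 + tau R := by rw [h4]; linarith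
    have h5 := UOP_per Γ (stK V K' (tau R) (ut β α C η ε R)) (stK V K' (tau R) (uk β α η R)) g h _ hf (R ^ (-2 : ℝ))
      (fun γ hγ => ⟨hzero _ huts γ hγ, hzero _ huks γ hγ⟩) (fun γ => by
        unfold stK
        rw [← mul_sub, norm_mul, Complex.norm_exp_ofReal_mul_I, one_mul, norm_sub_rev]
        exact (hU' _).1)
    refine h5.trans ((mul_le_mul_of_nonneg_right hn (by positivity)).trans (le_of_eq ?_))
    rw [Real.exp_add, UOP_exp_tau hR1']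
    have e1 : R ^ (1 / 8 : ℝ) * R ^ (-2 : ℝ) = R ^ (-(15 / 8) : ℝ) := by
      rw [← Real.rpow_add hR0]
      congr 1
      norm_num
    rw [← e1]
    ring
  have hTS : ‖T - S‖ ≤ R ^ (-1 : ℝ) := by
    have h1 := (hKO2 _ (mG.restrict (dG F))).2.1 _ _ T S htm htb hkm hkb hT hS
    have h2 := UOP_small hKO1 (mG.restrict (dG F))
      (fun g h => perK Γ (stK V K' (tau R) (ut β α C η ε R)) g h - perK Γ (stK V K' (tau R) (uk β α η R)) g h)
      (htm.sub hkm) (Cg * Real.exp D0 * R ^ (-(15 / 8) : ℝ))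
      (by positivity) hdiff (T - S) h1
    rw [← hm] at h2
    refine h2.trans ?_
    have e1 : Cg * Real.exp D0 * R ^ (-(15 / 8) : ℝ) * m = M * R ^ (-(15 / 8) : ℝ) := by
      rw [hM]
      ring
    rw [e1]
    have e2 : R ^ (-1 : ℝ) = R ^ (7 / 8 : ℝ) * R ^ (-(15 / 8) : ℝ) := by
      rw [← Real.rpow_add hR0]
      congr 1
      norm_num
    rw [e2]
    refine mul_le_mul_of_nonneg_right ?_ (by positivity)
    have h3 : M ≤ R ^ (1 / 2 : ℝ) := by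
      rw [← Real.sqrt_eq_rpow]
      exact Real.le_sqrt_of_sq_le r5
    exact h3.trans (UOP_pow_le hR1' (by norm_num))
  have hR2δ : R ^ (-1 : ℝ) ≤ R ^ (-(2 * δ)) := UOP_pow_le hR1' (by linarith)
  -- the norm of S
  have hSn : ‖S‖ ≤ 1 + R ^ (-δ2) := by
    refine hKO3 _ (mG.restrict (dG F)) _ S (1 + R ^ (-δ2)) (by positivity) hkm hkb hS ?_
    rintro v hv ⟨B, hB⟩
    obtain ⟨v', hv'm, hv'b, hv'i, hv'e⟩ := UOP_ext Γ F hΓ hF v hv B hB
    have h1 := hT2 R K' V v' r2 hQ.inv hv'm ⟨B, hv'b⟩ hv'i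
    have h2 : ∀ y, ∫ z, perK Γ (stK V K' (tau R) (uk β α η R)) y z * v z ∂(mG.restrict (dG F)) =
        ∫ h, stK V K' (tau R) (uk β α η R) y h * v' h ∂mG := by
      intro y
      rw [← hku v' hv'm ⟨B, hv'b⟩ hv'i y]
      refine setIntegral_congr_fun hGFD1.1 fun z hz => ?_
      show _ * v z = _ * v' z
      rw [hv'e z hz]
    have h3 : ∫ y, ‖v y‖ ^ 2 ∂(mG.restrict (dG F)) = iR F (fun g => ‖v' g‖ ^ 2) := by
      refine setIntegral_congr_fun hGFD1.1 fun z hz => ?_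
      show ‖v z‖ ^ 2 = ‖v' z‖ ^ 2
      rw [hv'e z hz]
    rw [h3]
    simp only [h2]
    exact h1
  constructor
  · have h1 : ‖T‖ ≤ ‖T - S‖ + ‖S‖ := by
      have h2 := norm_add_le (T - S) S
      rw [sub_add_cancel] at h2
      exact h2
    have h2 : R ^ (-δ2) ≤ R ^ (-(2 * δ)) := UOP_pow_le hR1' (by linarith)
    have h3 : 0 ≤ R ^ (-(2 * δ)) := by positivity
    linarith
  · intro Φ hΦ hφ1
    obtain ⟨Q, hQd⟩ : ∃ Q : SL(2, ℝ) → ℂ, Q = fun g => QQ β α (w0 R) (R ^ (-η)) R φ g := ⟨_, rfl⟩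
    have hΦ' : (Φ : SL(2, ℝ) → ℂ) =ᵐ[mG.restrict (dG F)] fun g => ((Real.sqrt R : ℝ) : ℂ) * Q g := by
      rw [hQd]
      exact hΦ
    have hsq : Real.sqrt R ^ 2 = R := Real.sq_sqrt hR0.le
    -- Q is continuous, bounded and invariant
    have hφc : InvC Γ φ := ⟨ETD_cont hQ.eig.1, hQ.eig.2.1⟩
    have htst := A_FL0.2.1 (1 / 4) R _ htb0
    have hQinv : InvG Γ Q := by
      rw [hQd]
      exact A_FL0.2.2 Γ _ φ (ETD_cont htst.1) htst.2 hφc
    obtain ⟨B, hB⟩ := (A_GBD Γ ℂ Q hΓ hQinv).1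
    have hKQ : ∀ y, ∫ z, perK Γ (stK V K' (tau R) (uk β α η R)) y z * Φ z ∂(mG.restrict (dG F)) =
        ((Real.sqrt R : ℝ) : ℂ) * ∫ h, stK V K' (tau R) (uk β α η R) y h * Q h ∂mG := by
      intro y
      rw [← hku Q hQinv.1.measurable ⟨B, hB⟩ hQinv.2 y, ← integral_const_mul]
      refine integral_congr_ae ?_
      filter_upwards [hΦ'] with z hz
      rw [hz]
      ring
    have h3 := hT3 R ρ ϵ μ V φ r3 hQ
    rw [← hK'] at h3
    have hSΦ : ‖S Φ - Φ‖ ^ 2 ≤ R ^ (-δ3) := by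
      rw [UOP_norm]
      have e1 : ∫ y, ‖(S Φ - Φ : Lp ℂ 2 (mG.restrict (dG F))) y‖ ^ 2 ∂(mG.restrict (dG F)) =
          ∫ y, R * ‖(∫ h, stK V K' (tau R) (uk β α η R) y h * Q h ∂mG) - Q y‖ ^ 2 ∂(mG.restrict (dG F)) := by
        refine integral_congr_ae ?_
        filter_upwards [Lp.coeFn_sub (S Φ) Φ, hS Φ, hΦ'] with y h4 h5 h6
        rw [h4, Pi.sub_apply, h5, h6, hKQ y, ← mul_sub, norm_mul, mul_pow, Complex.norm_real, Real.norm_eq_abs, sq_abs, hsq]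
      rw [e1, integral_const_mul]
      have h7 : R * iR F (fun g => ‖(∫ h, stK V K' (tau R) (uk β α η R) g h * Q h ∂mG) - Q g‖ ^ 2) ≤
          R ^ (-δ3) * nn F φ := by
        rw [hQd]
        exact h3
      refine h7.trans ?_
      have h8 : 0 ≤ R ^ (-δ3) := by positivity
      nlinarith
    have hSΦ' : ‖S Φ - Φ‖ ≤ R ^ (-(2 * δ)) := by
      refine abs_le_of_sq_le_sq' ?_ (by positivity) |>.2
      refine hSΦ.trans ?_
      rw [← Real.rpow_natCast, ← Real.rpow_mul hR0.le]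
      refine UOP_pow_le hR1' ?_
      push_cast
      linarith
    have hΦn : ‖Φ‖ ≤ 2 := by
      have h4 := hT4 Γ F R (w0 R) (R ^ (-η)) hΓ hF r4 hw10 le_rfl hl8 hl1 φ hφc
      have h5 : ‖Φ‖ ^ 2 = R * qn F (cw β α (w0 R) (R ^ (-η))) R φ := by
        rw [UOP_norm]
        have e1 : ∫ y, ‖Φ y‖ ^ 2 ∂(mG.restrict (dG F)) = ∫ y, R * ‖Q y‖ ^ 2 ∂(mG.restrict (dG F)) := by
          refine integral_congr_ae ?_
          filter_upwards [hΦ'] with y h6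
          rw [h6, norm_mul, mul_pow, Complex.norm_real, Real.norm_eq_abs, sq_abs, hsq]
        rw [e1, integral_const_mul, hQd]
        rfl
      have h6 : R ^ (-(1 / 40) : ℝ) ≤ 1 := Real.rpow_le_one_of_one_le_of_nonpos hR1' (by norm_num)
      have h7 : 0 ≤ R ^ (-(1 / 40) : ℝ) := by positivity
      have h8 : ‖Φ‖ ^ 2 ≤ 2 := by
        rw [h5]
        refine h4.trans ?_
        nlinarith
      nlinarith [norm_nonneg Φ]
    have h9 : T Φ - Φ = (T - S) Φ + (S Φ - Φ) := by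
      rw [ContinuousLinearMap.sub_apply]
      abel
    rw [h9]
    have h10 : ‖(T - S) Φ‖ ≤ R ^ (-1 : ℝ) * 2 :=
      ((T - S).le_opNorm Φ).trans (mul_le_mul hTS hΦn (norm_nonneg _) (by positivity))
    have h11 := norm_add_le ((T - S) Φ) (S Φ - Φ)
    linarith

end

end Pool.Agent.RPQ
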